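import Pool.Agent.Lib.E94.All

set_option autoImplicit false

namespace Pool.Agent.Results.MP_fb430f_co.Energy9over4

/-- Additive energy of lattice points on the sphere of radius `n` in four dimensions:
`E(P) = O_ε(|P|^(9/4) n^ε)`. -/
theorem result (ε : ℝ) (hε : 0 < ε) : ∃ C : ℝ, ∀ n : ℕ, 1 ≤ n → ∀ P : Finset (Fin 4 → ℤ),
    (∀ x ∈ P, ∑ i, x i ^ 2 = (n : ℤ) ^ 2) →
    (Finset.addEnergy P P : ℝ) ≤ C * (P.card : ℝ) ^ (9 / 4 : ℝ) * (n : ℝ) ^ ε :=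
  Pool.Agent.Lib.E94.main ε hε

end Pool.Agent.Results.MP_fb430f_co.Energy9over4
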