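import Mathlib
import Pool.Agent.Lib.FL63.Main

/-- For infinitely many radii `n` there is a set `P` of at least `n / 24` lattice points on the
sphere of radius `n` in four dimensions whose additive energy is at least
`c |P| ^ 2 (log log n) ^ 3`. -/
theorem Pool.Agent.Results.MP_fb430f_co.LowerLogLogCubed.result :
    ∃ c : ℝ, 0 < c ∧ ∀ N : ℕ, ∃ n : ℕ, N ≤ n ∧ ∃ P : Finset (Fin 4 → ℤ),
      (∀ x ∈ P, ∑ i, x i ^ 2 = (n : ℤ) ^ 2) ∧ n ≤ 24 * P.card ∧
      c * (P.card : ℝ) ^ 2 * Real.log (Real.log n) ^ 3 ≤ (Finset.addEnergy P P : ℝ) :=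
  FL63.main
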